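import Pool.Agent.BER.Stmts

set_option autoImplicit false

/-!
# Row FAM of squad BER: the family of the eigenvectors
-/

namespace Pool.Agent.BER.H11

open Set Filter Topology MeasureTheory
open scoped InnerProductSpace ENNReal
open Pool.Agent.BE01 Pool.Agent.BEL Pool.Agent.BEF Pool.Agent.BEN Pool.Agent.BEH Pool.Agent.BEG

theorem fam (slk : SlkStmt) : FamStmt := by
  intro T _ μ _ s C0 ω X X' _ _ _ _ W W' i K hs hX hS hc hω hcl hK hR
  have key : ∀ n : ℕ, ∃ (m : ℕ) (φ : Fin m → X'), (¬ Odd n → m = 0) ∧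
      Orthonormal ℝ (fun i => W'.e (φ i)) ∧
      (∀ i, ((n : ℝ) ^ 2 * ω ^ 2) • W'.SX (φ i) = φ i) ∧
      (Odd n → ∀ F : X', (∀ i, ⟪W'.e F, W'.e (φ i)⟫_ℝ = 0) →
        ∃ q : X', q - ((n : ℝ) ^ 2 * ω ^ 2) • W'.SX q = F) ∧
      (Odd n → (∀ u ∈ K, u = ((n : ℝ) ^ 2 * ω ^ 2) • W.S u → u = 0) → m = 0) ∧
      (n = 1 → (∃ u ∈ K, u ≠ 0 ∧ u = (ω ^ 2) • W.S u) → 1 ≤ m) := by
    intro n
    by_cases hn : Odd n
    · have hn0 : 0 < (n : ℝ) := by
        have := hn.pos
        exact_mod_cast this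
      obtain ⟨m, φ, hev, hsp, hsl⟩ := slk T μ s C0 ((n : ℝ) * ω) X X' W W' i K hs hX hS hc
        (mul_pos hn0 hω) hcl hK hR
      have hsq : ((n : ℝ) * ω) ^ 2 = (n : ℝ) ^ 2 * ω ^ 2 := mul_pow _ _ _
      have hone := (hsl 0 (fun n' _ h3 h0 => by omega)).one
      rw [hsq] at hone
      have hev2 := hev.2
      rw [hsq] at hev2
      refine ⟨m, φ, fun h => absurd hn h, hev.1, hev2, fun _ => hone, fun _ hno => ?_, ?_⟩
      · by_contra hm
        have hm' : 0 < m := Nat.pos_of_ne_zero hm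
        have h1 : W'.e (φ ⟨0, hm'⟩) = ((n : ℝ) ^ 2 * ω ^ 2) • W.S (W'.e (φ ⟨0, hm'⟩)) := by
          have h2 := congrArg W'.e (hev2 ⟨0, hm'⟩)
          rw [map_smul, W'.e_SX, hR.S] at h2
          exact h2.symm
        have h3 := hno _ (hR.mem (φ ⟨0, hm'⟩)) h1
        have h4 := hev.1.1 ⟨0, hm'⟩
        change ‖W'.e (φ ⟨0, hm'⟩)‖ = 1 at h4
        rw [h3, norm_zero] at h4
        exact zero_ne_one h4
      · intro h1 hu
        obtain ⟨u, huK, hu0, hu1⟩ := hu
        by_contra hm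
        have hm' : m = 0 := by omega
        subst hm'
        have h2 := hsp u huK (by
          rw [hsq, h1, Nat.cast_one, one_pow, one_mul]
          exact hu1)
        have h3 : Set.range (fun i => W'.e (φ i)) = ∅ := by
          rw [Set.range_eq_empty_iff]
          infer_instance
        rw [h3, Submodule.span_empty] at h2
        exact hu0 ((Submodule.mem_bot ℝ).1 h2)
    · refine ⟨0, Fin.elim0, fun _ => rfl, ⟨fun i => i.elim0, fun i => i.elim0⟩,
        fun i => i.elim0, fun h => absurd h hn, fun h => absurd h hn, ?_⟩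
      intro h1
      exact absurd (h1 ▸ odd_one) hn
  choose m φ h1 h2 h3 h4 h5 h6 using key
  exact ⟨m, φ, ⟨h1, h2, h3, h4⟩, h5, h6 1 rfl⟩

end Pool.Agent.BER.H11
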